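import Mathlib

/-!
# The v-number of a squarefree monomial ideal can exceed the depth by any amount

Over every field and for every `k ≥ 1` we construct a squarefree monomial ideal `I` with
`v(I) = k` and `depth (R / I) = 1`: the Stanley-Reisner ideal of the disjoint union of the
boundaries of two simplices with `k + 1` vertices each.
-/

set_option autoImplicit false

namespace Pool.Agent.Results.MP_d06a13_ag.VNumberAboveDepth

open MvPolynomial

/-- `I` is a squarefree monomial ideal: a proper ideal generated by squarefree monomials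
`∏ i ∈ s, x_i`. -/
def IsSquarefreeMonomialIdeal {σ K : Type*} [Field K] (I : Ideal (MvPolynomial σ K)) : Prop :=
  I ≠ ⊤ ∧ ∃ S : Set (Finset σ), I = Ideal.span ((fun s : Finset σ => ∏ i ∈ s, X i) '' S)

/-- The v-number of `I`: the least degree `d` of a homogeneous polynomial `f` for which the ideal
`(I : f)` is an associated prime of `I`. -/
noncomputable def vNumber {σ K : Type*} [Field K] (I : Ideal (MvPolynomial σ K)) : ℕ∞ :=
  ⨅ d ∈ {d : ℕ | ∃ f : MvPolynomial σ K, f.IsHomogeneous d ∧
    I.colon {f} ∈ associatedPrimes (MvPolynomial σ K) (MvPolynomial σ K ⧸ I)}, (d : ℕ∞)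

/-- The depth of `R / I` with respect to the homogeneous maximal ideal: the supremum of the lengths
of the regular sequences on `R / I` of elements of the ideal generated by the variables. -/
noncomputable def depth {σ K : Type*} [Field K] (I : Ideal (MvPolynomial σ K)) : ℕ∞ :=
  ⨆ rs ∈ {rs : List (MvPolynomial σ K) | (∀ r ∈ rs, r ∈ Ideal.span (Set.range X)) ∧
    RingTheory.Sequence.IsRegular (MvPolynomial σ K ⧸ I) rs}, (rs.length : ℕ∞)

section construction

variable {σ : Type} [Fintype σ] [DecidableEq σ] (c : σ → Bool) (K : Type*) [Field K]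

/-- the vertices of colour `b` -/
def block (b : Bool) : Finset σ := Finset.univ.filter (fun i => c i = b)

/-- the minimal nonfaces -/
def nonfaces : Set (Finset σ) :=
  {s | (∃ b, s = block c b) ∨ ∃ i j, c i ≠ c j ∧ s = {i, j}}

/-- the exponent of the monomial of a finite set -/
noncomputable def expo (s : Finset σ) : σ →₀ ℕ := ∑ i ∈ s, Finsupp.single i 1

theorem expo_apply (s : Finset σ) (i : σ) : expo s i = if i ∈ s then 1 else 0 := by
  unfold expo
  rw [Finsupp.finsetSum_apply]
  simp [Finsupp.single_apply]

theorem prod_X_eq (s : Finset σ) : (∏ i ∈ s, X i : MvPolynomial σ K) = monomial (expo s) 1 := by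
  unfold expo
  rw [monomial_sum_one]
  rfl

/-- the Stanley-Reisner ideal -/
noncomputable def SR : Ideal (MvPolynomial σ K) :=
  Ideal.span ((fun s : Finset σ => ∏ i ∈ s, X i) '' nonfaces c)

variable {K}

theorem mem_SR {g : MvPolynomial σ K} :
    g ∈ SR c K ↔ ∀ m ∈ g.support, ∃ s ∈ nonfaces c, s ⊆ m.support := by
  have h : SR c K = Ideal.span ((fun s => monomial s (1 : K)) '' (expo '' nonfaces c)) := by
    unfold SR
    rw [Set.image_image]
    congr 1
    apply Set.image_congr
    intro s _
    exact prod_X_eq K s
  rw [h, mem_ideal_span_monomial_image]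
  refine forall₂_congr fun m _ => ?_
  constructor
  · rintro ⟨_, ⟨s, hs, rfl⟩, hle⟩
    refine ⟨s, hs, fun i hi => ?_⟩
    have := hle i
    rw [expo_apply, if_pos hi] at this
    rw [Finsupp.mem_support_iff]
    omega
  · rintro ⟨s, hs, hsub⟩
    refine ⟨expo s, ⟨s, hs, rfl⟩, fun i => ?_⟩
    rw [expo_apply]
    split_ifs with hi
    · have := hsub hi
      rw [Finsupp.mem_support_iff] at this
      omega
    · exact Nat.zero_le _

theorem X_mul_X_mem {i j : σ} (h : c i ≠ c j) : (X i * X j : MvPolynomial σ K) ∈ SR c K := by
  apply Ideal.subset_span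
  refine ⟨{i, j}, Or.inr ⟨i, j, h, rfl⟩, ?_⟩
  have : i ≠ j := fun e => h (by rw [e])
  simp [Finset.prod_pair this]

theorem block_mem (b : Bool) : (∏ i ∈ block c b, X i : MvPolynomial σ K) ∈ SR c K :=
  Ideal.subset_span ⟨block c b, Or.inl ⟨b, rfl⟩, rfl⟩

/-- the prime of the facet `block c (c a) \ {a}` -/
noncomputable def PP (K : Type*) [Field K] (a : σ) : Ideal (MvPolynomial σ K) :=
  Ideal.span (X '' {i | c i ≠ c a ∨ i = a})

theorem mem_PP {a : σ} {g : MvPolynomial σ K} :
    g ∈ PP c K a ↔ ∀ m ∈ g.support, ∃ i, (c i ≠ c a ∨ i = a) ∧ m i ≠ 0 := by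
  unfold PP
  rw [mem_ideal_span_X_image]
  simp

/-- the projection that kills the variables of the prime -/
noncomputable def proj (K : Type*) [Field K] (a : σ) : MvPolynomial σ K →ₐ[K] MvPolynomial σ K :=
  aeval (fun i => if c i ≠ c a ∨ i = a then 0 else X i)

theorem sub_proj_mem (a : σ) (g : MvPolynomial σ K) : g - proj c K a g ∈ PP c K a := by
  induction g using MvPolynomial.induction_on with
  | C r => simp [proj]
  | add p q hp hq =>
    rw [map_add]
    have : p + q - (proj c K a p + proj c K a q) = (p - proj c K a p) + (q - proj c K a q) := by ring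
    rw [this]
    exact Ideal.add_mem _ hp hq
  | mul_X p i hp =>
    rw [map_mul]
    have h1 : proj c K a (X i) = if c i ≠ c a ∨ i = a then 0 else X i := by
      simp [proj]
    have : p * X i - proj c K a p * proj c K a (X i) =
        (p - proj c K a p) * X i + proj c K a p * (X i - proj c K a (X i)) := by ring
    rw [this]
    refine Ideal.add_mem _ (Ideal.mul_mem_right _ _ hp) (Ideal.mul_mem_left _ _ ?_)
    rw [h1]
    split_ifs with h
    · rw [sub_zero]
      exact Ideal.subset_span ⟨i, h, rfl⟩
    · simp

theorem proj_eq_zero {a : σ} {g : MvPolynomial σ K} (hg : g ∈ PP c K a) : proj c K a g = 0 := by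
  have h : PP c K a ≤ RingHom.ker (proj c K a).toRingHom := by
    unfold PP
    rw [Ideal.span_le]
    rintro _ ⟨i, hi, rfl⟩
    rw [SetLike.mem_coe, RingHom.mem_ker]
    have hi' : c i ≠ c a ∨ i = a := hi
    show proj c K a (X i) = 0
    simp only [proj, aeval_X]
    rw [if_pos hi']
  exact h hg

theorem mem_PP_iff {a : σ} {g : MvPolynomial σ K} : g ∈ PP c K a ↔ proj c K a g = 0 := by
  refine ⟨proj_eq_zero c, fun h => ?_⟩
  have := sub_proj_mem c a g
  rwa [h, sub_zero] at this

theorem PP_prime (a : σ) : (PP c K a).IsPrime := by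
  constructor
  · intro h
    have h1 : (1 : MvPolynomial σ K) ∈ PP c K a := by rw [h]; trivial
    rw [mem_PP_iff, map_one] at h1
    exact one_ne_zero h1
  · intro x y hxy
    rw [mem_PP_iff, map_mul] at hxy
    rcases mul_eq_zero.1 hxy with h | h
    · exact Or.inl ((mem_PP_iff c).2 h)
    · exact Or.inr ((mem_PP_iff c).2 h)

variable {k : ℕ} (hcard : ∀ b, (block c b).card = k + 1)

include hcard in
theorem SR_le_PP (a : σ) : SR c K ≤ PP c K a := by
  intro g hg
  rw [mem_PP]
  rw [mem_SR] at hg
  intro m hm
  obtain ⟨s, hs, hsub⟩ := hg m hm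
  rcases hs with ⟨b, rfl⟩ | ⟨i, j, hij, rfl⟩
  · by_cases hb : b = c a
    · subst hb
      refine ⟨a, Or.inr rfl, ?_⟩
      have : a ∈ block c (c a) := by simp [block]
      exact Finsupp.mem_support_iff.1 (hsub this)
    · obtain ⟨i, hi⟩ : (block c b).Nonempty := by
        rw [← Finset.card_pos, hcard]; omega
      have hci : c i = b := by simpa [block] using hi
      exact ⟨i, Or.inl (by rw [hci]; exact hb), Finsupp.mem_support_iff.1 (hsub hi)⟩
  · by_cases h1 : c i = c a
    · exact ⟨j, Or.inl (fun h => hij (by rw [h1, h])), Finsupp.mem_support_iff.1 (hsub (by simp))⟩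
    · exact ⟨i, Or.inl h1, Finsupp.mem_support_iff.1 (hsub (by simp))⟩

/-- a monomial outside the ideal: its support is a face -/
theorem face_of {m : σ →₀ ℕ} (hm : ¬ ∃ s ∈ nonfaces c, s ⊆ m.support) :
    ∃ b, m.support ⊆ block c b ∧ ∀ b', ¬ block c b' ⊆ m.support := by
  have h2 : ∀ b', ¬ block c b' ⊆ m.support := fun b' h => hm ⟨_, Or.inl ⟨b', rfl⟩, h⟩
  by_cases hne : m.support.Nonempty
  · obtain ⟨i, hi⟩ := hne
    refine ⟨c i, fun j hj => ?_, h2⟩
    by_contra hcon
    have hij : c i ≠ c j := fun h => hcon (by simp [block, h])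
    exact hm ⟨{i, j}, Or.inr ⟨i, j, hij, rfl⟩, by
      intro x hx
      rcases Finset.mem_insert.1 hx with rfl | hx
      · exact hi
      · rw [Finset.mem_singleton.1 hx]; exact hj⟩
  · rw [Finset.not_nonempty_iff_eq_empty] at hne
    exact ⟨true, by rw [hne]; exact Finset.empty_subset _, h2⟩

theorem mem_SR_of_forall {g : MvPolynomial σ K} (h : ∀ a, g ∈ PP c K a) : g ∈ SR c K := by
  rw [mem_SR]
  intro m hm
  by_contra hcon
  obtain ⟨b, hb, hb'⟩ := face_of c hcon
  obtain ⟨a, ha, ham⟩ := Finset.not_subset.1 (hb' b)
  have hab : c a = b := by simpa [block] using ha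
  obtain ⟨i, hi, hmi⟩ := (mem_PP c).1 (h a) m hm
  have him : i ∈ m.support := Finsupp.mem_support_iff.2 hmi
  rcases hi with hi | rfl
  · apply hi
    have := hb him
    rw [hab]
    simpa [block] using this
  · exact ham him

/-- the monomial of the facet `block c (c a) \ {a}` -/
noncomputable def FF (K : Type*) [Field K] (a : σ) : MvPolynomial σ K :=
  ∏ i ∈ (block c (c a)).erase a, X i

theorem proj_FF (a : σ) : proj c K a (FF c K a) = FF c K a := by
  unfold FF
  rw [map_prod]
  refine Finset.prod_congr rfl fun i hi => ?_
  rw [Finset.mem_erase] at hi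
  have hci : c i = c a := by simpa [block] using hi.2
  simp only [proj, aeval_X]
  rw [if_neg]
  push Not
  exact ⟨hci, hi.1⟩

theorem FF_ne_zero (a : σ) : FF c K a ≠ 0 := by
  unfold FF
  exact Finset.prod_ne_zero_iff.2 fun i _ => X_ne_zero i

theorem FF_notMem (a : σ) : FF c K a ∉ PP c K a := by
  rw [mem_PP_iff, proj_FF]
  exact FF_ne_zero c a

include hcard in
theorem colon_FF (hk : 1 ≤ k) (a : σ) : (SR c K).colon {FF c K a} = PP c K a := by
  ext g
  rw [Submodule.mem_colon_singleton, smul_eq_mul]
  constructor
  · intro h
    rcases (PP_prime c a).mem_or_mem (SR_le_PP c hcard a h) with h1 | h1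
    · exact h1
    · exact absurd h1 (FF_notMem c a)
  · intro h
    have h1 : PP c K a ≤ (SR c K).colon {FF c K a} := by
      unfold PP
      rw [Ideal.span_le]
      rintro _ ⟨i, hi, rfl⟩
      rw [SetLike.mem_coe, Submodule.mem_colon_singleton, smul_eq_mul]
      by_cases hi1 : i = a
      · subst hi1
        unfold FF
        rw [Finset.mul_prod_erase _ _ (by simp [block])]
        exact block_mem c (c i)
      · have hi2 : c i ≠ c a := by
          rcases hi with h | h
          · exact h
          · exact absurd h hi1
        obtain ⟨j, hj⟩ : ((block c (c a)).erase a).Nonempty := by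
          rw [← Finset.card_pos, Finset.card_erase_of_mem (by simp [block]), hcard]
          omega
        have hcj : c j = c a := by simpa [block] using Finset.mem_of_mem_erase hj
        unfold FF
        rw [← Finset.mul_prod_erase _ _ hj, ← mul_assoc]
        exact Ideal.mul_mem_right _ _ (X_mul_X_mem c (by rw [hcj]; exact hi2))
    have h2 := h1 h
    rwa [Submodule.mem_colon_singleton, smul_eq_mul] at h2

/-- the colon ideal as an annihilator in the quotient -/
theorem colon_eq (I : Ideal (MvPolynomial σ K)) (f : MvPolynomial σ K) :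
    I.colon {f} = (⊥ : Submodule (MvPolynomial σ K) (MvPolynomial σ K ⧸ I)).colon
      {Ideal.Quotient.mk I f} := by
  ext g
  rw [Submodule.mem_colon_singleton, Submodule.mem_colon_singleton, Submodule.mem_bot,
    smul_eq_mul, ← Ideal.Quotient.eq_zero_iff_mem, map_mul]
  rfl

include hcard in
theorem colon_assoc (hk : 1 ≤ k) (a : σ) : (SR c K).colon {FF c K a} ∈
    associatedPrimes (MvPolynomial σ K) (MvPolynomial σ K ⧸ SR c K) := by
  rw [AssociatedPrimes.mem_iff, isAssociatedPrime_iff]
  refine ⟨?_, Ideal.Quotient.mk _ (FF c K a), colon_eq _ _⟩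
  rw [colon_FF c hcard hk]
  exact PP_prime c a

include hcard in
theorem FF_hom (a : σ) : (FF c K a).IsHomogeneous k := by
  have h := IsHomogeneous.prod ((block c (c a)).erase a) (fun i => (X i : MvPolynomial σ K))
    (fun _ => 1) (fun i _ => isHomogeneous_X _ _)
  rw [Finset.sum_const, Finset.card_erase_of_mem (by simp [block]), hcard] at h
  unfold FF
  simpa using h

include hcard in
/-- the lower bound for the v-number -/
theorem le_of_prime {f : MvPolynomial σ K} {d : ℕ} (hf : f.IsHomogeneous d)
    (hp : ((SR c K).colon {f}).IsPrime) : k ≤ d := by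
  by_contra hlt
  have hfI : f ∉ SR c K := by
    intro h
    apply hp.ne_top
    rw [Ideal.eq_top_iff_one, Submodule.mem_colon_singleton, one_smul]
    exact h
  rw [mem_SR] at hfI
  push Not at hfI
  obtain ⟨m, hm, hmn⟩ := hfI
  obtain ⟨b, hb, hb'⟩ := face_of c (m := m) (by push Not; exact hmn)
  have hdeg : m.support.card ≤ d := by
    have h1 : m.degree = d := by
      have := hf (mem_support_iff.1 hm)
      rw [Finsupp.degree_eq_weight_one]
      exact this
    rw [← h1, Finsupp.degree]
    rw [Finset.card_eq_sum_ones]
    refine Finset.sum_le_sum fun i hi => ?_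
    have := Finsupp.mem_support_iff.1 hi
    omega
  have hblock : (∏ i ∈ block c b, X i : MvPolynomial σ K) ∈ (SR c K).colon {f} := by
    rw [Submodule.mem_colon_singleton, smul_eq_mul]
    exact Ideal.mul_mem_right _ _ (block_mem c b)
  obtain ⟨i, hi, hXi⟩ := (hp.prod_mem_iff).1 hblock
  rw [Submodule.mem_colon_singleton, smul_eq_mul, mem_SR] at hXi
  have hm2 : m + Finsupp.single i 1 ∈ (X i * f).support := by
    rw [mem_support_iff, mul_comm, coeff_mul_X]
    exact mem_support_iff.1 hm
  obtain ⟨s, hs, hsub⟩ := hXi _ hm2
  have hsub' : s ⊆ insert i m.support := by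
    intro x hx
    have := hsub hx
    rw [Finsupp.mem_support_iff, Finsupp.add_apply] at this
    rw [Finset.mem_insert, Finsupp.mem_support_iff]
    by_cases hxi : x = i
    · exact Or.inl hxi
    · right
      rw [Finsupp.single_apply, if_neg (Ne.symm hxi)] at this
      simpa using this
  have hins : insert i m.support ⊆ block c b := Finset.insert_subset hi hb
  rcases hs with ⟨b', rfl⟩ | ⟨u, v, huv, rfl⟩
  · have h3 := Finset.card_le_card hsub'
    have h4 := Finset.card_insert_le i m.support
    rw [hcard] at h3
    omega
  · have h5 : c u = b := by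
      have := hins (hsub' (Finset.mem_insert_self u {v}))
      simpa [block] using this
    have h6 : c v = b := by
      have := hins (hsub' (Finset.mem_insert_of_mem (Finset.mem_singleton_self v)))
      simpa [block] using this
    exact huv (by rw [h5, h6])

include hcard in
theorem vNumber_SR (hk : 1 ≤ k) : vNumber (SR c K) = k := by
  obtain ⟨a, -⟩ : (block c true).Nonempty := by
    rw [← Finset.card_pos, hcard]; omega
  apply le_antisymm
  · exact iInf₂_le k ⟨FF c K a, FF_hom c hcard a, colon_assoc c hcard hk a⟩
  · refine le_iInf₂ fun d hd => ?_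
    obtain ⟨f, hf, hp⟩ := hd
    exact_mod_cast le_of_prime c hcard hf hp.isPrime

/-- a regular element is outside the prime of every facet -/
theorem notMem_of_regular (hk : 1 ≤ k) (hcard : ∀ b, (block c b).card = k + 1)
    {r : MvPolynomial σ K} (hr : ∀ g, r * g ∈ SR c K → g ∈ SR c K) (a : σ) : r ∉ PP c K a := by
  intro h
  rw [← colon_FF c hcard hk, Submodule.mem_colon_singleton, smul_eq_mul] at h
  exact FF_notMem c a (SR_le_PP c hcard a (hr _ h))

/-- the part of a polynomial in the variables of colour `b` -/
noncomputable def part (K : Type*) [Field K] (b : Bool) : MvPolynomial σ K →ₐ[K] MvPolynomial σ K :=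
  aeval (fun i => if c i = b then X i else 0)

theorem part_mem {b : Bool} {g : MvPolynomial σ K} (hg : g ∈ Ideal.span (Set.range X)) :
    part c K b g ∈ Ideal.span (X '' {i | c i = b} : Set (MvPolynomial σ K)) := by
  have h : Ideal.span (Set.range X) ≤
      (Ideal.span (X '' {i | c i = b} : Set (MvPolynomial σ K))).comap (part c K b).toRingHom := by
    rw [Ideal.span_le]
    rintro _ ⟨i, rfl⟩
    rw [SetLike.mem_coe, Ideal.mem_comap]
    show part c K b (X i) ∈ _
    simp only [part, aeval_X]
    split_ifs with hi
    · exact Ideal.subset_span ⟨i, hi, rfl⟩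
    · exact Ideal.zero_mem _
  exact h hg

theorem mul_mem_SR {b b' : Bool} (hb : b ≠ b') {g h : MvPolynomial σ K}
    (hg : g ∈ Ideal.span (X '' {i | c i = b} : Set (MvPolynomial σ K)))
    (hh : h ∈ Ideal.span (X '' {i | c i = b'} : Set (MvPolynomial σ K))) : g * h ∈ SR c K := by
  have h1 := Ideal.mul_mem_mul hg hh
  rw [Ideal.span_mul_span'] at h1
  refine (Ideal.span_le.2 ?_ : Ideal.span _ ≤ SR c K) h1
  rintro _ ⟨_, ⟨i, hi, rfl⟩, _, ⟨j, hj, rfl⟩, rfl⟩
  exact X_mul_X_mem c (by
    intro e
    have hi' : c i = b := hi
    have hj' : c j = b' := hj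
    exact hb (by rw [← hi', ← hj', e]))

/-- modulo the ideal, a polynomial without constant term is the sum of its two parts -/
theorem sub_parts_mem (g : MvPolynomial σ K) :
    g + C (constantCoeff g) - part c K true g - part c K false g ∈ SR c K := by
  induction g using MvPolynomial.induction_on with
  | C r =>
    have h1 : ∀ b, part c K b (C r) = C r := fun b => by simp [part]
    rw [h1, h1]
    simp
  | add p q hp hq =>
    simp only [map_add]
    have : p + q + (C (constantCoeff p) + C (constantCoeff q)) -
        (part c K true p + part c K true q) - (part c K false p + part c K false q) =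
        (p + C (constantCoeff p) - part c K true p - part c K false p) +
        (q + C (constantCoeff q) - part c K true q - part c K false q) := by ring
    rw [this]
    exact Ideal.add_mem _ hp hq
  | mul_X p i hp =>
    have h0 : constantCoeff (p * X i : MvPolynomial σ K) = 0 := by simp
    rw [h0, map_mul, map_mul]
    have h1 : ∀ b, part c K b (X i) = if c i = b then X i else 0 := fun b => by simp [part]
    rw [h1, h1, map_zero, add_zero]
    have key : ∀ b b', b ≠ b' → c i = b →
        (p + C (constantCoeff p) - part c K b p - part c K b' p ∈ SR c K) →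
        p * X i - part c K b p * X i ∈ SR c K := by
      intro b b' hbb hb h
      have h2 : (part c K b' p - C (constantCoeff p)) * X i ∈ SR c K := by
        rw [mul_comm]
        refine mul_mem_SR c hbb (Ideal.subset_span ⟨i, hb, rfl⟩) ?_
        have h3 : p - C (constantCoeff p) ∈ Ideal.span (Set.range X) := by
          have := (mem_ideal_span_X_image (σ := σ) (R := K) (x := p - C (constantCoeff p))
            (s := Set.univ)).2 (by
              intro m hm
              have hm0 : m ≠ 0 := by
                rintro rfl
                rw [mem_support_iff] at hm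
                apply hm
                rw [coeff_sub, coeff_zero_C]
                simp [constantCoeff]
              obtain ⟨j, hj⟩ := Finsupp.ne_iff.1 hm0
              exact ⟨j, Set.mem_univ _, hj⟩)
          rwa [Set.image_univ] at this
        have h4 := part_mem c (b := b') h3
        have h5 : part c K b' (C (constantCoeff p)) = C (constantCoeff p) := by simp [part]
        rwa [map_sub, h5] at h4
      have h6 := Ideal.add_mem _ (Ideal.mul_mem_right (X i) _ h) h2
      have h7 : (p + C (constantCoeff p) - part c K b p - part c K b' p) * X i +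
          (part c K b' p - C (constantCoeff p)) * X i = p * X i - part c K b p * X i := by ring
      rwa [h7] at h6
    cases hci : c i
    · simp only [Bool.false_eq_true, if_false, if_true, mul_zero, sub_zero]
      refine key false true (by decide) hci ?_
      have : p + C (constantCoeff p) - part c K false p - part c K true p =
        p + C (constantCoeff p) - part c K true p - part c K false p := by ring
      rw [this]
      exact hp
    · simp only [Bool.true_eq_false, if_false, if_true, mul_zero, sub_zero]
      exact key true false (by decide) hci hp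

theorem sub_parts_mem' {g : MvPolynomial σ K} (hg : g ∈ Ideal.span (Set.range X)) :
    g - part c K true g - part c K false g ∈ SR c K := by
  have h0 : constantCoeff g = 0 := by
    have h : Ideal.span (Set.range X) ≤ RingHom.ker (constantCoeff (R := K) (σ := σ)) := by
      rw [Ideal.span_le]
      rintro _ ⟨i, rfl⟩
      simp [RingHom.mem_ker]
    exact h hg
  have := sub_parts_mem c g
  rwa [h0, map_zero, add_zero] at this

/-- there is no regular sequence of length two -/
theorem no_two (hk : 1 ≤ k) (hcard : ∀ b, (block c b).card = k + 1) {r t : MvPolynomial σ K}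
    (hrm : r ∈ Ideal.span (Set.range X)) (htm : t ∈ Ideal.span (Set.range X))
    (hr : ∀ g, r * g ∈ SR c K → g ∈ SR c K)
    (ht : ∀ g, t * g ∈ SR c K ⊔ Ideal.span {r} → g ∈ SR c K ⊔ Ideal.span {r}) : False := by
  obtain ⟨u, hu⟩ : (block c true).Nonempty := by
    rw [← Finset.card_pos, hcard]; omega
  obtain ⟨v, hv⟩ : (block c false).Nonempty := by
    rw [← Finset.card_pos, hcard]; omega
  have hcu : c u = true := by simpa [block] using hu
  have hcv : c v = false := by simpa [block] using hv
  set r1 := part c K true r with hr1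
  set r0 := part c K false r with hr0
  set t1 := part c K true t with ht1
  set t0 := part c K false t with ht0
  have hr01 : r1 * r0 ∈ SR c K := mul_mem_SR c (by decide) (part_mem c hrm) (part_mem c hrm)
  have htr : t0 * r1 ∈ SR c K := by
    rw [mul_comm]; exact mul_mem_SR c (by decide) (part_mem c hrm) (part_mem c htm)
  have hrt : r0 * t1 ∈ SR c K := by
    rw [mul_comm]; exact mul_mem_SR c (by decide) (part_mem c htm) (part_mem c hrm)
  have hdr := sub_parts_mem' c hrm
  have hdt := sub_parts_mem' c htm
  have h1 : t * r1 ∈ SR c K ⊔ Ideal.span {r} := by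
    have h2 : t * r1 = ((t - t1 - t0) * r1 + t0 * r1 - (r - r1 - r0) * t1 - r0 * t1) + t1 * r := by
      ring
    rw [h2]
    refine Ideal.add_mem _ (Ideal.mem_sup_left ?_) (Ideal.mem_sup_right ?_)
    · exact Ideal.sub_mem _ (Ideal.sub_mem _ (Ideal.add_mem _ (Ideal.mul_mem_right _ _ hdt) htr)
        (Ideal.mul_mem_right _ _ hdr)) hrt
    · exact Ideal.mul_mem_left _ _ (Ideal.mem_span_singleton_self r)
  obtain ⟨i, hi, j, hj, hij⟩ := Submodule.mem_sup.1 (ht _ h1)
  obtain ⟨s, rfl⟩ := Ideal.mem_span_singleton'.1 hj
  -- `r1 = i + s * r`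
  have h3 : r * (s * r0) ∈ SR c K := by
    have : r * (s * r0) = r1 * r0 - i * r0 := by rw [← hij]; ring
    rw [this]
    exact Ideal.sub_mem _ hr01 (Ideal.mul_mem_right _ _ hi)
  have h4 : r * ((1 - s) * r1) ∈ SR c K := by
    have : r * ((1 - s) * r1) = (r - r1 - r0) * r1 + r1 * r0 + i * r1 := by
      have e : s * r = r1 - i := by rw [← hij]; ring
      calc r * ((1 - s) * r1) = r * r1 - (s * r) * r1 := by ring
        _ = r * r1 - (r1 - i) * r1 := by rw [e]
        _ = _ := by ring
    rw [this]
    exact Ideal.add_mem _ (Ideal.add_mem _ (Ideal.mul_mem_right _ _ hdr) hr01)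
      (Ideal.mul_mem_right _ _ hi)
  have h5 := SR_le_PP c hcard v (hr _ h3)
  have h6 := SR_le_PP c hcard u (hr _ h4)
  have hpart : ∀ (a : σ) (b : Bool), c a ≠ b → ∀ g : MvPolynomial σ K,
      g ∈ Ideal.span (X '' {i | c i = b} : Set (MvPolynomial σ K)) → g ∈ PP c K a := by
    intro a b hab g hg
    refine (Ideal.span_mono ?_ : Ideal.span _ ≤ PP c K a) hg
    apply Set.image_mono
    intro x hx
    have hx' : c x = b := hx
    exact Or.inl (by rw [hx']; exact hab.symm)
  have hrv := notMem_of_regular c hk hcard hr v
  have hru := notMem_of_regular c hk hcard hr u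
  have h7 : r0 ∉ PP c K v := by
    intro h
    apply hrv
    have : r = (r - r1 - r0) + r1 + r0 := by ring
    rw [this]
    exact Ideal.add_mem _ (Ideal.add_mem _ (SR_le_PP c hcard v hdr)
      (hpart v true (by rw [hcv]; decide) _ (part_mem c hrm))) h
  have h8 : r1 ∉ PP c K u := by
    intro h
    apply hru
    have : r = (r - r1 - r0) + r1 + r0 := by ring
    rw [this]
    exact Ideal.add_mem _ (Ideal.add_mem _ (SR_le_PP c hcard u hdr) h)
      (hpart u false (by rw [hcu]; decide) _ (part_mem c hrm))
  have h9 : s ∈ PP c K v := ((PP_prime c v).mem_or_mem h5).resolve_right h7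
  have h10 : 1 - s ∈ PP c K u := ((PP_prime c u).mem_or_mem h6).resolve_right h8
  have hle : ∀ a, PP c K a ≤ RingHom.ker (constantCoeff (R := K) (σ := σ)) := by
    intro a
    unfold PP
    rw [Ideal.span_le]
    rintro _ ⟨i, -, rfl⟩
    simp [RingHom.mem_ker]
  have e1 := hle _ h9
  have e2 := hle _ h10
  rw [RingHom.mem_ker] at e1 e2
  rw [map_sub, map_one, e1, sub_zero] at e2
  exact one_ne_zero e2

theorem smulRegular_iff (I : Ideal (MvPolynomial σ K)) (r : MvPolynomial σ K) :
    IsSMulRegular (MvPolynomial σ K ⧸ I) r ↔ ∀ g, r * g ∈ I → g ∈ I := by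
  rw [isSMulRegular_iff_right_eq_zero_of_smul]
  constructor
  · intro h g hg
    rw [← Ideal.Quotient.eq_zero_iff_mem]
    apply h
    rw [← Ideal.Quotient.eq_zero_iff_mem, map_mul] at hg
    exact hg
  · intro h x hx
    obtain ⟨g, rfl⟩ := Ideal.Quotient.mk_surjective x
    rw [Ideal.Quotient.eq_zero_iff_mem]
    apply h
    rw [← Ideal.Quotient.eq_zero_iff_mem, map_mul]
    exact hx

open scoped Pointwise in
/-- membership in `r (R / I)` -/
theorem mem_smul_top (I : Ideal (MvPolynomial σ K)) (r g : MvPolynomial σ K) :
    Ideal.Quotient.mk I g ∈ (r • (⊤ : Submodule (MvPolynomial σ K) (MvPolynomial σ K ⧸ I))) ↔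
      g ∈ I ⊔ Ideal.span {r} := by
  rw [Submodule.mem_smul_pointwise_iff_exists]
  constructor
  · rintro ⟨x, -, hx⟩
    obtain ⟨s, rfl⟩ := Ideal.Quotient.mk_surjective x
    have hx' : Ideal.Quotient.mk I (r * s) = Ideal.Quotient.mk I g := by
      rw [map_mul]; exact hx
    rw [Ideal.Quotient.eq] at hx'
    have h1 : g = -(r * s - g) + s * r := by ring
    rw [h1]
    exact Ideal.add_mem _ (Ideal.mem_sup_left (neg_mem hx'))
      (Ideal.mem_sup_right (Ideal.mul_mem_left _ _ (Ideal.mem_span_singleton_self r)))
  · intro h
    obtain ⟨i, hi, j, hj, hij⟩ := Submodule.mem_sup.1 h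
    obtain ⟨s, rfl⟩ := Ideal.mem_span_singleton'.1 hj
    refine ⟨Ideal.Quotient.mk I s, trivial, ?_⟩
    have h1 : r • Ideal.Quotient.mk I s = Ideal.Quotient.mk I (r * s) := by
      rw [map_mul]; rfl
    rw [h1, Ideal.Quotient.eq, ← hij]
    have : r * s - (i + s * r) = -i := by ring
    rw [this]
    exact neg_mem hi

theorem depth_SR (hk : 1 ≤ k) (hcard : ∀ b, (block c b).card = k + 1) : depth (SR c K) = 1 := by
  apply le_antisymm
  · refine iSup₂_le fun rs hrs => ?_
    obtain ⟨hm, hreg⟩ := hrs
    match rs, hm, hreg with
    | [], _, _ => simp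
    | [r], _, _ => simp
    | r :: t :: rest, hm, hreg =>
      exfalso
      rw [RingTheory.Sequence.isRegular_cons_iff, RingTheory.Sequence.isRegular_cons_iff] at hreg
      obtain ⟨h1, h2, -⟩ := hreg
      rw [smulRegular_iff] at h1
      refine no_two c hk hcard (hm r (by simp)) (hm t (by simp)) h1 ?_
      intro g hg
      rw [isSMulRegular_iff_right_eq_zero_of_smul] at h2
      have h3 := h2 (Submodule.Quotient.mk (Ideal.Quotient.mk (SR c K) g)) (by
        rw [← Submodule.Quotient.mk_smul, Submodule.Quotient.mk_eq_zero]
        have h4 : t • Ideal.Quotient.mk (SR c K) g = Ideal.Quotient.mk (SR c K) (t * g) := by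
          rw [map_mul]; rfl
        rw [h4, mem_smul_top]
        exact hg)
      rwa [Submodule.Quotient.mk_eq_zero, mem_smul_top] at h3
  · have hreg : RingTheory.Sequence.IsRegular (MvPolynomial σ K ⧸ SR c K)
        [(∑ i, X i : MvPolynomial σ K)] := by
      refine ⟨(RingTheory.Sequence.isWeaklyRegular_singleton_iff _ _).2 ?_, ?_⟩
      · rw [smulRegular_iff]
        intro g hg
        refine mem_SR_of_forall c fun a => ?_
        refine ((PP_prime c a).mem_or_mem (SR_le_PP c hcard a hg)).resolve_left ?_
        intro h
        rw [mem_PP] at h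
        obtain ⟨j, hj⟩ : ((block c (c a)).erase a).Nonempty := by
          rw [← Finset.card_pos, Finset.card_erase_of_mem (by simp [block]), hcard]
          omega
        obtain ⟨hja, hjb⟩ := Finset.mem_erase.1 hj
        have hcj : c j = c a := by simpa [block] using hjb
        obtain ⟨i, hi, hne⟩ := h (Finsupp.single j 1) (by
          rw [mem_support_iff, coeff_sum, Finset.sum_eq_single j]
          · simp [coeff_X]
          · intro b _ hb
            rw [coeff_X, if_neg]
            intro e
            exact hb (Finsupp.single_left_injective one_ne_zero e)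
          · simp)
        have hij : i = j := by
          by_contra hcon
          rw [Finsupp.single_apply, if_neg (fun e => hcon e.symm)] at hne
          exact hne rfl
        subst hij
        rcases hi with hi | hi
        · exact hi hcj
        · exact hja hi
      · intro h
        have h1 : Ideal.Quotient.mk (SR c K) 1 ∈
            (Ideal.ofList [(∑ i, X i : MvPolynomial σ K)] •
              (⊤ : Submodule (MvPolynomial σ K) (MvPolynomial σ K ⧸ SR c K))) := by
          rw [← h]; trivial
        rw [Ideal.ofList_singleton, Submodule.ideal_span_singleton_smul, mem_smul_top] at h1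
        obtain ⟨u, hu⟩ : (block c true).Nonempty := by
          rw [← Finset.card_pos, hcard]; omega
        have hle : SR c K ⊔ Ideal.span {(∑ i, X i : MvPolynomial σ K)} ≤
            RingHom.ker (constantCoeff (R := K) (σ := σ)) := by
          refine sup_le ((SR_le_PP c hcard u).trans ?_) ?_
          · unfold PP
            rw [Ideal.span_le]
            rintro _ ⟨i, -, rfl⟩
            simp [RingHom.mem_ker]
          · rw [Ideal.span_le, Set.singleton_subset_iff, SetLike.mem_coe, RingHom.mem_ker, map_sum]
            simp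
        have := hle h1
        rw [RingHom.mem_ker, map_one] at this
        exact one_ne_zero this
    have h : (([(∑ i, X i : MvPolynomial σ K)] : List _).length : ℕ∞) ≤ depth (SR c K) := by
      refine le_iSup₂_of_le [(∑ i, X i : MvPolynomial σ K)] ⟨?_, hreg⟩ le_rfl
      intro r hr
      rw [List.mem_singleton] at hr
      subst hr
      exact Ideal.sum_mem _ fun i _ => Ideal.subset_span ⟨i, rfl⟩
    simpa using h

theorem isSquarefree_SR (hcard : ∀ b, (block c b).card = k + 1) :
    IsSquarefreeMonomialIdeal (SR c K) := by
  refine ⟨?_, nonfaces c, rfl⟩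
  obtain ⟨u, hu⟩ : (block c true).Nonempty := by
    rw [← Finset.card_pos, hcard]; omega
  intro h
  apply (PP_prime (K := K) c u).ne_top
  rw [eq_top_iff, ← h]
  exact SR_le_PP c hcard u

end construction

/-- For every field `K` and every `k ≥ 1` there is a squarefree monomial ideal `I` in a polynomial
ring over `K` with `v(I) = k` and `depth (R / I) = 1`. In particular (`k ≥ 2`) the inequality
`v(I) ≤ depth (R / I)` fails over every field, and `v(I) - depth (R / I)` is unbounded. -/
theorem result (K : Type*) [Field K] (k : ℕ) (hk : 1 ≤ k) :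
    ∃ (n : ℕ) (I : Ideal (MvPolynomial (Fin n) K)), IsSquarefreeMonomialIdeal I ∧
      vNumber I = k ∧ depth I = 1 := by
  let c : Fin ((k + 1) + (k + 1)) → Bool := fun i => decide (i.val < k + 1)
  have hcard : ∀ b, (block c b).card = k + 1 := by
    have h1 : (block c true).card = k + 1 := by
      have : block c true = Finset.univ.map (Fin.castAddEmb (k + 1)) := by
        ext i
        simp only [block, Finset.mem_filter, Finset.mem_univ, true_and, Finset.mem_map, c,
          decide_eq_true_eq]
        constructor
        · intro h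
          exact ⟨⟨i.val, h⟩, rfl⟩
        · rintro ⟨j, rfl⟩
          exact j.2
      rw [this, Finset.card_map, Finset.card_univ, Fintype.card_fin]
    have h2 : (block c true).card + (block c false).card = (k + 1) + (k + 1) := by
      have h3 := Finset.card_filter_add_card_filter_not (s := Finset.univ)
        (fun i : Fin ((k + 1) + (k + 1)) => c i = true)
      rw [Finset.card_univ, Fintype.card_fin] at h3
      have h4 : block c false = Finset.univ.filter (fun i => ¬ c i = true) := by
        ext i
        simp [block]
      rw [h4]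
      exact h3
    intro b
    cases b
    · omega
    · exact h1
  exact ⟨_, SR c K, isSquarefree_SR c hcard, vNumber_SR c hcard hk, depth_SR c hk hcard⟩

end Pool.Agent.Results.MP_d06a13_ag.VNumberAboveDepth
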